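import Pool.Agent.U479.FJ.Num

set_option autoImplicit false

/-! The numerical part, if only weights which share an equation are coprime. -/

namespace Pool.Agent.U479.VC

open Finset
open Pool.Agent.U479.FJ (G B prod_ge prod_geZ sum_B)

variable {V κ : Type} [Fintype V] [DecidableEq V] [Fintype κ] [DecidableEq κ]

theorem prod_dvd {a : V → ℕ} {d : ℕ} (s : Finset V)
    (hcop : ∀ i ∈ s, ∀ l ∈ s, i ≠ l → Nat.Coprime (a i) (a l)) (h : ∀ i ∈ s, a i ∣ d) :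
    ∏ i ∈ s, a i ∣ d := by
  induction s using Finset.induction_on with
  | empty => simp
  | insert i s hi ih =>
    rw [prod_insert hi]
    refine Nat.Coprime.mul_dvd_of_dvd_of_dvd ?_ (h i (mem_insert_self i s))
      (ih (fun j hj l hl => hcop j (mem_insert_of_mem hj) l (mem_insert_of_mem hl))
        fun j hj => h j (mem_insert_of_mem hj))
    exact Nat.Coprime.prod_right fun j hj => hcop i (mem_insert_self i s) j (mem_insert_of_mem hj)
      (fun h => hi (h ▸ hj))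

variable {a : V → ℕ} {d : κ → ℕ} {J : V → κ}

theorem B_ge (ha : ∀ i, 1 ≤ a i) (hcop : ∀ i l, i ≠ l → J i = J l → Nat.Coprime (a i) (a l))
    (hd : ∀ j, 1 ≤ d j) (hJ : ∀ i, a i ∣ d (J i)) {j : κ} {U : Finset V} (hU : U ⊆ G J j) :
    ((∏ i ∈ U, a i : ℕ) : ℤ) - 1 - ∑ i ∈ U, ((a i : ℤ) - 1) ≤ B a d J j := by
  have h1 : ∏ i ∈ G J j, a i ∣ d j := prod_dvd _ (fun i hi l hl hil => by
    rw [G, mem_filter] at hi hl
    exact hcop i l hil (hi.2.trans hl.2.symm)) fun i hi => by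
    rw [G, mem_filter] at hi
    rw [← hi.2]
    exact hJ i
  have h2 : ∏ i ∈ G J j, a i ≤ d j := Nat.le_of_dvd (hd j) h1
  rw [← prod_sdiff hU] at h2
  have h3 := prod_geZ ha (G J j \ U)
  have h4 := prod_geZ ha U
  have h5 : ∑ i ∈ G J j, ((a i : ℤ) - 1) = ∑ i ∈ G J j \ U, ((a i : ℤ) - 1) +
      ∑ i ∈ U, ((a i : ℤ) - 1) := (sum_sdiff hU).symm
  have h6 : 0 ≤ ∑ i ∈ G J j \ U, ((a i : ℤ) - 1) :=
    sum_nonneg fun i _ => by have := ha i; omega
  have h7 : 0 ≤ ∑ i ∈ U, ((a i : ℤ) - 1) := sum_nonneg fun i _ => by have := ha i; omega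
  have h8 : ((∏ i ∈ G J j \ U, a i : ℕ) : ℤ) * ((∏ i ∈ U, a i : ℕ) : ℤ) ≤ d j := by
    exact_mod_cast h2
  unfold B
  rw [h5]
  nlinarith

theorem B_nonneg (ha : ∀ i, 1 ≤ a i) (hcop : ∀ i l, i ≠ l → J i = J l → Nat.Coprime (a i) (a l))
    (hd : ∀ j, 1 ≤ d j) (hJ : ∀ i, a i ∣ d (J i)) (j : κ) : 0 ≤ B a d J j := by
  have := B_ge ha hcop hd hJ (empty_subset (G J j))
  simpa using this

theorem B_pair (ha : ∀ i, 1 ≤ a i) (hcop : ∀ i l, i ≠ l → J i = J l → Nat.Coprime (a i) (a l))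
    (hd : ∀ j, 1 ≤ d j) (hJ : ∀ i, a i ∣ d (J i)) {i l : V} (hil : i ≠ l) (h : J i = J l) :
    ((a i : ℤ) - 1) * ((a l : ℤ) - 1) ≤ B a d J (J i) := by
  have := B_ge ha hcop hd hJ (U := {i, l}) (j := J i) (by
    intro x hx
    rw [mem_insert, mem_singleton] at hx
    rw [G, mem_filter]
    rcases hx with rfl | rfl
    · exact ⟨mem_univ _, rfl⟩
    · exact ⟨mem_univ _, h.symm⟩)
  rw [prod_pair hil, sum_pair hil] at this
  push_cast at this
  linarith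

theorem caseF (ha : ∀ i, 1 ≤ a i) (hcop : ∀ i l, i ≠ l → J i = J l → Nat.Coprime (a i) (a l))
    (hd : ∀ j, 1 ≤ d j) (hJ : ∀ i, a i ∣ d (J i)) (T : Finset V) (hTne : T.Nonempty)
    (D c : V → ℕ) (hD : ∀ i ∈ T, D i * a i = d (J i)) (hc1 : ∀ i ∈ T, 1 ≤ c i)
    (hcD : ∀ i ∈ T, c i ≤ D i) (e : ℤ) (he : ∑ i ∈ T, B a d J (J i) ≤ e) :
    (∃ p ∈ T, ∃ M : ℕ, (∀ i ∈ T, a i ≤ M) ∧ ((a p : ℤ) - 1) * M ≤ e) ∨
      ∃ b ∈ T, ∑ i ∈ T.erase b, ((c i : ℤ) - 1) * a i < e + a b := by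
  classical
  obtain ⟨σ, hσ⟩ : ∃ σ : V → ℤ, σ = fun i => ∑ l ∈ (G J (J i)).erase i, ((a l : ℤ) - 1) :=
    ⟨_, rfl⟩
  have hiG : ∀ i, i ∈ G J (J i) := fun i => by rw [G, mem_filter]; exact ⟨mem_univ _, rfl⟩
  have hB : ∀ i ∈ T, B a d J (J i) = (D i : ℤ) * a i - a i - σ i := by
    intro i hi
    unfold B
    rw [← add_sum_erase _ _ (hiG i), ← hD i hi, hσ]
    push_cast
    ring
  have hσD : ∀ i ∈ T, σ i + 1 ≤ D i := by
    intro i hi
    have h1 : ∏ l ∈ G J (J i), a l ∣ d (J i) := prod_dvd _ (fun i hi l hl hil => by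
      rw [G, mem_filter] at hi hl
      exact hcop i l hil (hi.2.trans hl.2.symm)) fun l hl => by
      rw [G, mem_filter] at hl
      rw [← hl.2]
      exact hJ l
    rw [← mul_prod_erase _ _ (hiG i), ← hD i hi, mul_comm (D i)] at h1
    have h2 := Nat.dvd_of_mul_dvd_mul_left (by have := ha i; omega) h1
    have hDi : 0 < D i := by have := hc1 i hi; have := hcD i hi; omega
    have h3 := Nat.le_of_dvd hDi h2
    have h4 := prod_geZ ha ((G J (J i)).erase i)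
    rw [hσ]
    show ∑ l ∈ (G J (J i)).erase i, ((a l : ℤ) - 1) + 1 ≤ D i
    have h5 : ((∏ l ∈ (G J (J i)).erase i, a l : ℕ) : ℤ) ≤ D i := by exact_mod_cast h3
    linarith
  have haZ : ∀ i, (1 : ℤ) ≤ a i := fun i => by exact_mod_cast ha i
  obtain ⟨p, hp, hpmin⟩ := exists_min_image T a hTne
  obtain ⟨b, hb, hbmax⟩ := exists_max_image T (fun i => c i * a i) hTne
  obtain ⟨δ, hδ⟩ : ∃ δ : V → ℤ, δ = fun i => σ i - ((D i : ℤ) - c i) * a i := ⟨_, rfl⟩
  have hδB : ∀ i ∈ T, ((c i : ℤ) - 1) * a i = B a d J (J i) + δ i := by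
    intro i hi
    rw [hB i hi, hδ]
    ring
  have hBδ : ∀ i ∈ T, ((a p : ℤ) - 1) * δ i ≤ B a d J (J i) := by
    intro i hi
    have hcDi : (c i : ℤ) ≤ D i := by exact_mod_cast hcD i hi
    have h1 : ((a i : ℤ) - 1) * δ i ≤ B a d J (J i) := by
      rw [hB i hi, hδ]
      show ((a i : ℤ) - 1) * (σ i - ((D i : ℤ) - c i) * a i) ≤ _
      have h2 : 0 ≤ (a i : ℤ) * ((D i : ℤ) - 1 - σ i) :=
        mul_nonneg (by have := haZ i; linarith) (by have := hσD i hi; linarith)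
      have h3 : 0 ≤ ((a i : ℤ) - 1) * (((D i : ℤ) - c i) * a i) :=
        mul_nonneg (by have := haZ i; linarith) (mul_nonneg (by linarith)
          (by have := haZ i; linarith))
      nlinarith
    have hapi : (a p : ℤ) ≤ a i := by exact_mod_cast hpmin i hi
    by_cases hδi : δ i ≤ 0
    · have h2 : ((a p : ℤ) - 1) * δ i ≤ 0 :=
        mul_nonpos_of_nonneg_of_nonpos (by have := haZ p; linarith) hδi
      exact h2.trans (B_nonneg ha hcop hd hJ _)
    · push Not at hδi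
      exact (mul_le_mul_of_nonneg_right (by linarith) hδi.le).trans h1
  have h1 : ((a p : ℤ) - 1) * ∑ i ∈ T, δ i ≤ e := by
    rw [mul_sum]
    exact (sum_le_sum hBδ).trans he
  by_cases h2 : ∑ i ∈ T, δ i < (c b : ℤ) * a b
  · right
    refine ⟨b, hb, ?_⟩
    have h3 : ∑ i ∈ T, ((c i : ℤ) - 1) * a i = ∑ i ∈ T, B a d J (J i) + ∑ i ∈ T, δ i := by
      rw [← sum_add_distrib]
      exact sum_congr rfl hδB
    have h4 := add_sum_erase T (fun i => ((c i : ℤ) - 1) * a i) hb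
    have h5 : ((c b : ℤ) - 1) * a b = (c b : ℤ) * a b - a b := by ring
    linarith
  · left
    push Not at h2
    refine ⟨p, hp, c b * a b, fun i hi => ?_, ?_⟩
    · exact (Nat.le_mul_of_pos_left _ (hc1 i hi)).trans (hbmax i hi)
    · push_cast
      exact (mul_le_mul_of_nonneg_left h2 (by have := haZ p; linarith)).trans h1

end Pool.Agent.U479.VC
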