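import Mathlib

set_option autoImplicit false

/-! A bound for the Frobenius number: all `z ≥ (a_p - 1) M` are in the semigroup, if `M` is at least all
generators. -/

namespace Pool.Agent.U479.VC

open Finset

variable {V : Type} [DecidableEq V]

theorem exists_list (a : V → ℕ) (y : V → ℕ) (T : Finset V) :
    ∃ L : List V, (∀ v ∈ L, v ∈ T) ∧ (L.map a).sum = ∑ i ∈ T, y i * a i := by
  induction T using Finset.induction_on with
  | empty => exact ⟨[], by simp, by simp⟩
  | insert i T hi ih =>
    obtain ⟨L, h1, h2⟩ := ih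
    refine ⟨List.replicate (y i) i ++ L, ?_, ?_⟩
    · intro v hv
      rcases List.mem_append.1 hv with h | h
      · rw [List.eq_of_mem_replicate h]; exact mem_insert_self _ _
      · exact mem_insert_of_mem (h1 v h)
    · rw [List.map_append, List.sum_append, h2, sum_insert hi, List.map_replicate,
        List.sum_replicate, smul_eq_mul]

theorem schur (a : V → ℕ) (T : Finset V) (ha : ∀ i, 1 ≤ a i)
    (hu : ∃ u : V → ℤ, ∑ i ∈ T, u i * a i = 1) {p : V} (hp : p ∈ T) (M : ℕ)
    (hM : ∀ i ∈ T, a i ≤ M) (z : ℕ) (hz : (a p - 1) * M ≤ z) :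
    ∃ y : V → ℕ, ∑ i ∈ T, y i * a i = z := by
  classical
  haveI : NeZero (a p) := ⟨by have := ha p; omega⟩
  have hex : ∃ n : ℕ, ∃ L : List V, L.length = n ∧ (∀ v ∈ L, v ∈ T) ∧
      (((L.map a).sum : ℕ) : ZMod (a p)) = z := by
    obtain ⟨u, hu⟩ := hu
    have h4 : (0 : ℤ) < a p := by have := ha p; exact_mod_cast this
    obtain ⟨y, hy⟩ : ∃ y : V → ℕ, ∀ i, (y i : ℤ) = (z * u i) % a p :=
      ⟨fun i => ((z * u i) % a p).toNat, fun i => Int.toNat_of_nonneg (Int.emod_nonneg _ h4.ne')⟩
    obtain ⟨L, h1, h2⟩ := exists_list a y T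
    refine ⟨_, L, rfl, h1, ?_⟩
    rw [h2]
    have h5 : ∀ i, ((y i : ℕ) : ZMod (a p)) = (z : ZMod (a p)) * (u i : ZMod (a p)) := by
      intro i
      have h6 : ((y i : ℤ) : ZMod (a p)) = ((z * u i : ℤ) : ZMod (a p)) := by
        rw [hy, ZMod.intCast_mod]
      push_cast at h6
      exact h6
    push_cast
    have h7 : ∑ i ∈ T, ((y i : ℕ) : ZMod (a p)) * (a i : ZMod (a p)) =
        z * ((∑ i ∈ T, u i * a i : ℤ) : ZMod (a p)) := by
      push_cast
      rw [mul_sum]
      exact sum_congr rfl fun i _ => by rw [h5]; ring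
    rw [h7, hu]
    simp
  obtain ⟨L, hL1, hL2, hL3⟩ := Nat.find_spec hex
  obtain ⟨n, hn⟩ : ∃ n, n = Nat.find hex := ⟨_, rfl⟩
  rw [← hn] at hL1
  have hmin : ∀ L' : List V, (∀ v ∈ L', v ∈ T) → (((L'.map a).sum : ℕ) : ZMod (a p)) = z →
      n ≤ L'.length := by
    intro L' h1 h2
    rw [hn]
    exact Nat.find_min' hex ⟨L', rfl, h1, h2⟩
  have hna : n < a p := by
    by_contra hcon
    push Not at hcon
    obtain ⟨i, j, hij, hf⟩ : ∃ i j : Fin (n + 1), i < j ∧
        ((((L.take i).map a).sum : ℕ) : ZMod (a p)) = ((((L.take j).map a).sum : ℕ) : ZMod (a p)) := by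
      obtain ⟨i, j, hij, hf⟩ := Fintype.exists_ne_map_eq_of_card_lt
        (fun i : Fin (n + 1) => ((((L.take i).map a).sum : ℕ) : ZMod (a p))) (by
          rw [ZMod.card, Fintype.card_fin]; omega)
      rcases lt_or_gt_of_ne hij with h | h
      · exact ⟨i, j, h, hf⟩
      · exact ⟨j, i, h, hf.symm⟩
    have h1 := hmin (L.take i ++ L.drop j) (by
      intro v hv
      rcases List.mem_append.1 hv with h | h
      · exact hL2 v (List.mem_of_mem_take h)
      · exact hL2 v (List.mem_of_mem_drop h)) (by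
      rw [List.map_append, List.sum_append, Nat.cast_add, hf, ← Nat.cast_add, ← List.sum_append,
        ← List.map_append, List.take_append_drop]
      exact hL3)
    rw [List.length_append, List.length_take, List.length_drop, hL1] at h1
    have hi := i.2
    have hj := j.2
    have hij' : (i : ℕ) < j := hij
    omega
  have hsum : (L.map a).sum ≤ z := by
    refine le_trans ?_ hz
    have h1 : (L.map a).sum ≤ (L.map a).length • M := by
      refine List.sum_le_card_nsmul _ _ fun x hx => ?_
      rw [List.mem_map] at hx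
      obtain ⟨v, hv, rfl⟩ := hx
      exact hM v (hL2 v hv)
    rw [List.length_map, hL1, smul_eq_mul] at h1
    exact h1.trans (Nat.mul_le_mul_right _ (by omega))
  obtain ⟨k, hk⟩ : a p ∣ z - (L.map a).sum := by
    rw [← ZMod.natCast_eq_zero_iff, Nat.cast_sub hsum, hL3, sub_self]
  refine ⟨fun i => L.count i + if i = p then k else 0, ?_⟩
  have h1 : (L.map a).sum = ∑ i ∈ T, L.count i * a i := by
    rw [Finset.sum_list_map_count]
    refine sum_subset (fun v hv => hL2 v (List.mem_toFinset.1 hv)) fun v _ hv => ?_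
    rw [List.mem_toFinset] at hv
    rw [List.count_eq_zero_of_not_mem hv, zero_smul]
  have h2 : ∑ i ∈ T, (L.count i + if i = p then k else 0) * a i =
      ∑ i ∈ T, L.count i * a i + k * a p := by
    have h3 : k * a p = ∑ i ∈ T, (if i = p then k else 0) * a i := by
      rw [sum_eq_single p]
      · simp
      · intro l _ hl; simp [hl]
      · intro h; exact absurd hp h
    rw [h3, ← sum_add_distrib]
    exact sum_congr rfl fun l _ => add_mul _ _ _
  rw [h2, ← h1, mul_comm k]
  omega

end Pool.Agent.U479.VC
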