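import Pool.Agent.U479.VB.Good
import Pool.Agent.U479.VC.Num
import Pool.Agent.U479.VC.Schur
import Pool.Agent.U479.FJ.Core

set_option autoImplicit false

/-! Freeness of the adjoint bundles of weighted complete intersections; arbitrary weights. -/

namespace Pool.Agent.U479.VC

open Finset MvPolynomial Pool.Agent.U479.VB
open Pool.Agent.U479.FJ (G B HasMon hasMon_single pair_mem other coord weight_eq sum_B)

variable {V : Type} [Fintype V] [DecidableEq V] {F : Type} [Field F]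

theorem exists_T (a : V → ℕ) (ha : ∀ i, 1 ≤ a i) (φ : V → MvPolynomial V F) (D : V → ℕ)
    (x : V → F) (hx : x ≠ 0) (hbig : ∀ i, x i ≠ 0 → 1 < a i)
    (hφ : ∀ i, 1 < a i → IsWeightedHomogeneous a (φ i) (D i * a i))
    (hcoef : ∀ i, 1 < a i → coeff (Finsupp.single i (D i)) (φ i) ≠ 0)
    (hav : ∀ x : V → F, x ≠ 0 → (∀ i, x i ≠ 0 → 1 < a i) → (∀ i, x i ≠ 0 → eval x (φ i) = 0) →
      ∀ g : ℕ, (∀ i, x i ≠ 0 → g ∣ a i) → g = 1)
    (hφx : ∀ i, 1 < a i → eval x (φ i) = 0) :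
    ∃ (T : Finset V) (Cm : V → ℕ), T.Nonempty ∧ (∀ i ∈ T, x i ≠ 0) ∧
      (∀ i ∈ T, 1 ≤ Cm i ∧ Cm i ≤ D i) ∧ System a Cm T ∧
      ∃ u : V → ℤ, ∑ i ∈ T, u i * a i = 1 := by
  classical
  obtain ⟨i₁, hi₁⟩ := Function.ne_iff.1 hx
  -- the relations
  obtain ⟨P, hP⟩ : ∃ P : V → (V → ℕ) → Prop, P = fun i s => ∃ m : V →₀ ℕ, coeff m (φ i) ≠ 0 ∧
      m ≠ Finsupp.single i (D i) ∧ (∀ l, m l ≠ 0 → x l ≠ 0) ∧
      s = fun l => if l = i then 0 else m l := ⟨_, rfl⟩
  obtain ⟨S, hS⟩ : ∃ S : Finset V, S = univ.filter fun i => x i ≠ 0 := ⟨_, rfl⟩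
  have hmemS : ∀ i, i ∈ S ↔ x i ≠ 0 := fun i => by rw [hS, mem_filter]; simp
  have hSc : ClosedP P S := by
    intro i _ s hs l hl
    rw [hP] at hs
    obtain ⟨m, -, -, h3, rfl⟩ := hs
    rw [hmemS]
    refine h3 l fun h => hl ?_
    by_cases hli : l = i
    · simp [hli]
    · simp [hli, h]
  obtain ⟨T, hTS, hTne, hTc, hTmin⟩ := exists_minimal P S ⟨i₁, (hmemS i₁).2 hi₁⟩ hSc
  have hTx : ∀ i ∈ T, x i ≠ 0 := fun i hi => (hmemS i).1 (hTS hi)
  -- the support of the monomials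
  have hsupp : ∀ i ∈ T, ∀ m : V →₀ ℕ, coeff m (φ i) ≠ 0 → (∀ l, m l ≠ 0 → x l ≠ 0) →
      ∀ l, m l ≠ 0 → l ∈ T := by
    intro i hi m hm hmx l hl
    by_cases hli : l = i
    · rw [hli]; exact hi
    by_cases hne : m = Finsupp.single i (D i)
    · rw [hne, Finsupp.single_apply, if_neg (Ne.symm hli)] at hl
      exact absurd rfl hl
    · refine hTc i hi (fun l => if l = i then 0 else m l) ?_ l ?_
      · rw [hP]; exact ⟨m, hm, hne, hmx, rfl⟩
      · beta_reduce
        rw [if_neg hli]; exact hl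
  -- the weights of `T` have no common divisor
  have hgT : ∀ g : ℕ, (∀ i ∈ T, g ∣ a i) → g = 1 := by
    intro g hg
    obtain ⟨x', hx'⟩ : ∃ x' : V → F, x' = fun l => if l ∈ T then x l else 0 := ⟨_, rfl⟩
    have hx'T : ∀ l, x' l ≠ 0 ↔ l ∈ T := by
      intro l
      rw [hx']
      beta_reduce
      by_cases hl : l ∈ T
      · simp [hl, hTx l hl]
      · simp [hl]
    have hx'e : ∀ l ∈ T, x' l = x l := fun l hl => by rw [hx']; exact if_pos hl
    refine hav x' ?_ (fun i hi => hbig i (hTx i ((hx'T i).1 hi))) ?_ g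
      (fun i hi => hg i ((hx'T i).1 hi))
    · obtain ⟨i, hi⟩ := hTne
      intro h
      exact (hx'T i).2 hi (by rw [h]; rfl)
    · intro i hi
      have hiT := (hx'T i).1 hi
      rw [← hφx i (hbig i (hTx i hiT)), eval_eq', eval_eq']
      refine sum_congr rfl fun m hm => ?_
      congr 1
      by_cases hall : ∀ l, m l ≠ 0 → x l ≠ 0
      · have h1 := hsupp i hiT m (mem_support_iff.1 hm) hall
        refine prod_congr rfl fun l _ => ?_
        by_cases hl : m l = 0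
        · rw [hl, pow_zero, pow_zero]
        · rw [hx'e l (h1 l hl)]
      · push Not at hall
        obtain ⟨l, hl, hxl⟩ := hall
        have hx'l : x' l = 0 := by
          by_contra h
          exact hTx l ((hx'T l).1 h) hxl
        rw [prod_eq_zero (mem_univ l) (by rw [hx'l, zero_pow hl]),
          prod_eq_zero (mem_univ l) (by rw [hxl, zero_pow hl])]
  have hu := bezout a T hgT
  -- one relation
  have hone' : ∀ i ∈ T, ∀ s, P i s → s i = 0 ∧ ∃ c, (1 ≤ c ∧ c ≤ D i) ∧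
      c * a i = ∑ l ∈ T, s l * a l := by
    intro i hi s hs
    have hs' := hs
    rw [hP] at hs
    obtain ⟨m, h1, h2, h3, rfl⟩ := hs
    refine ⟨if_pos rfl, ?_⟩
    have hwt : m i * a i + ∑ l ∈ univ.erase i, m l * a l = D i * a i := by
      rw [← hφ i (hbig i (hTx i hi)) h1, weight_eq]
      exact add_sum_erase univ (fun l => m l * a l) (mem_univ i)
    have hmD : m i < D i := by
      have h4 : m i * a i ≤ D i * a i := by omega
      have h5 : m i ≤ D i := Nat.le_of_mul_le_mul_right h4 (by have := ha i; omega)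
      refine lt_of_le_of_ne h5 fun h6 => h2 ?_
      rw [h6] at hwt
      have h7 : ∑ l ∈ univ.erase i, m l * a l = 0 := by omega
      ext l
      by_cases hl : l = i
      · subst hl
        rw [Finsupp.single_eq_same, h6]
      · rw [Finsupp.single_apply, if_neg (Ne.symm hl)]
        rcases Nat.mul_eq_zero.1 ((sum_eq_zero_iff.1 h7) l (mem_erase.2 ⟨hl, mem_univ l⟩))
          with h8 | h8
        · exact h8
        · have := ha l; omega
    refine ⟨D i - m i, by omega, ?_⟩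
    have h4 : ∑ l ∈ T, (if l = i then 0 else m l) * a l =
        ∑ l, (if l = i then 0 else m l) * a l := by
      refine sum_subset (subset_univ T) fun l _ hl => ?_
      have : (if l = i then 0 else m l) = 0 := by
        by_contra h
        exact hl (hTc i hi _ hs' l h)
      rw [this, zero_mul]
    have h5 : ∑ l, (if l = i then 0 else m l) * a l = ∑ l ∈ univ.erase i, m l * a l := by
      rw [← add_sum_erase univ _ (mem_univ i)]
      beta_reduce
      rw [if_pos rfl, zero_mul, zero_add]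
      exact sum_congr rfl fun l hl => by rw [if_neg (mem_erase.1 hl).1]
    rw [h4, h5, Nat.sub_mul]
    omega
  have hexP : ∀ i ∈ T, ∃ s, P i s := by
    intro i hi
    have hxi := hTx i hi
    obtain ⟨m, h1, h2, h3⟩ := other (hφx i (hbig i hxi)) (hcoef i (hbig i hxi)) hxi
    refine ⟨fun l => if l = i then 0 else m l, ?_⟩
    rw [hP]; exact ⟨m, h1, h2, h3, rfl⟩
  obtain ⟨Cm, hCm⟩ : ∃ Cm : V → ℕ, Cm = fun i =>
      Nat.findGreatest (fun c => ∃ s, P i s ∧ c * a i = ∑ l ∈ T, s l * a l) (D i) := ⟨_, rfl⟩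
  have hCle : ∀ i s c, P i s → c ≤ D i → c * a i = ∑ l ∈ T, s l * a l → c ≤ Cm i := by
    intro i s c h1 h2 h3
    rw [hCm]
    exact Nat.le_findGreatest h2 ⟨s, h1, h3⟩
  have hCD : ∀ i, Cm i ≤ D i := fun i => by rw [hCm]; exact Nat.findGreatest_le _
  have hsys : System a Cm T := by
    intro b hb
    obtain ⟨r, W, h0, h1, h2⟩ := exists_choice a P T ha hTmin hTc hb
    obtain ⟨s, hs⟩ := hexP b hb
    obtain ⟨r', hr'⟩ : ∃ r' : V → V → ℕ, r' = fun i => if i ∈ T then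
      (if i = b then s else r i) else 0 := ⟨_, rfl⟩
    have hr'b : r' b = s := by rw [hr']; simp [hb]
    have hr'i : ∀ i ∈ T, i ≠ b → r' i = r i := fun i hi hib => by rw [hr']; simp [hi, hib]
    have hr'P : ∀ i ∈ T, P i (r' i) := by
      intro i hi
      by_cases hib : i = b
      · subst hib; rw [hr'b]; exact hs
      · rw [hr'i i hi hib]; exact h0 i hi hib
    have hcex : ∀ i, ∃ c, i ∈ T → (1 ≤ c ∧ c ≤ Cm i) ∧ c * a i = ∑ l ∈ T, r' i l * a l := by
      intro i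
      by_cases hi : i ∈ T
      · obtain ⟨-, c, h3, h4⟩ := hone' i hi _ (hr'P i hi)
        exact ⟨c, fun _ => ⟨⟨h3.1, hCle i _ c (hr'P i hi) h3.2 h4⟩, h4⟩⟩
      · exact ⟨0, fun h => absurd h hi⟩
    choose c hc using hcex
    refine ⟨c, r', W, fun i hi => (hc i hi).1, fun i hi => (hc i hi).2, ?_, h1, ?_⟩
    · intro i
      by_cases hi : i ∈ T
      · exact (hone' i hi _ (hr'P i hi)).1
      · rw [hr']; simp [hi]
    · intro i hi hib
      have h3 := h2 i hi hib
      rw [← hr'i i hi hib, ← (hc i hi).2] at h3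
      exact h3
  refine ⟨T, Cm, hTne, hTx, fun i hi => ⟨?_, hCD i⟩, hsys, hu⟩
  obtain ⟨s, hs⟩ := hexP i hi
  obtain ⟨-, c, h1, h2⟩ := hone' i hi s hs
  exact h1.1.trans (hCle i s c hs h1.2 h2)

theorem hasMon_pair {a : V → ℕ} (ha : ∀ i, 1 ≤ a i) {x : V → F} {i l : V} (hil : i ≠ l)
    (hcop : Nat.Coprime (a i) (a l))
    (hi : x i ≠ 0) (hl : x l ≠ 0) {e : ℕ} (he : ((a i : ℤ) - 1) * ((a l : ℤ) - 1) ≤ e) :
    HasMon a x e := by
  have h1 : (a i - 1) * (a l - 1) ≤ e := by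
    have h2 : (((a i - 1) * (a l - 1) : ℕ) : ℤ) = ((a i : ℤ) - 1) * ((a l : ℤ) - 1) := by
      rw [Nat.cast_mul, Nat.cast_sub (ha i), Nat.cast_sub (ha l)]; simp
    rw [← h2] at he
    exact_mod_cast he
  obtain ⟨u, v, huv⟩ := pair_mem (ha i) (ha l) hcop h1
  refine ⟨fun t => if t = i then u else if t = l then v else 0, fun t ht => ?_, ?_⟩
  · by_cases h : t = i
    · rw [h]; exact hi
    · by_cases h' : t = l
      · rw [h']; exact hl
      · simp [h, h'] at ht
  · rw [← huv, ← add_sum_erase univ _ (mem_univ i), ← add_sum_erase (univ.erase i) _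
      (mem_erase.2 ⟨Ne.symm hil, mem_univ l⟩)]
    have h3 : ∑ t ∈ (univ.erase i).erase l, (if t = i then u else if t = l then v else 0) * a t = 0 := by
      refine sum_eq_zero fun t ht => ?_
      rw [mem_erase, mem_erase] at ht
      simp [ht.1, ht.2.1]
    rw [h3]
    simp [Ne.symm hil]

variable {κ : Type} [Fintype κ] [DecidableEq κ]

theorem core (a : V → ℕ) (ha : ∀ i, 1 ≤ a i)
    (d : κ → ℕ) (f : κ → MvPolynomial V F) (hd : ∀ j, 1 ≤ d j)
    (hf : ∀ j, IsWeightedHomogeneous a (f j) (d j)) (J : V → κ)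
    (hJ1 : ∀ i, 1 < a i → eval (Pi.single i 1) (f (J i)) ≠ 0)
    (hcop : ∀ i l, i ≠ l → J i = J l → Nat.Coprime (a i) (a l))
    (hav : ∀ x : V → F, x ≠ 0 → (∀ i, x i ≠ 0 → 1 < a i) →
      (∀ i, x i ≠ 0 → eval x (f (J i)) = 0) → ∀ g : ℕ, (∀ i, x i ≠ 0 → g ∣ a i) → g = 1)
    (n : ℕ) (hn : n + Fintype.card κ + 1 = Fintype.card V) (K : ℕ) (hK : n + 1 ≤ K) :
    ∑ i, a i ≤ ∑ j, d j + K ∧
    ∀ x : V → F, x ≠ 0 → (∀ j, eval x (f j) = 0) →
      HasMon a x (∑ j, d j + K - ∑ i, a i) := by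
  classical
  have hJ : ∀ i, a i ∣ d (J i) := by
    intro i
    by_cases h : 1 < a i
    · obtain ⟨D, hD, -⟩ := coord (hf (J i)) (hJ1 i h)
      exact ⟨D, by rw [← hD, mul_comm]⟩
    · have : a i = 1 := by have := ha i; omega
      rw [this]; exact one_dvd _
  have hBn := B_nonneg (a := a) (d := d) (J := J) ha hcop hd hJ
  have hsum := sum_B (a := a) (d := d) (J := J)
  have hsub : ∀ P : Finset κ, ∑ j ∈ P, B a d J j ≤ ∑ j, B a d J j := fun P =>
    sum_le_sum_of_subset_of_nonneg (subset_univ P) fun j _ _ => hBn j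
  have hB0 : 0 ≤ ∑ j, B a d J j := sum_nonneg fun j _ => hBn j
  have hnZ : (n : ℤ) + Fintype.card κ + 1 = Fintype.card V := by exact_mod_cast hn
  have hle : ∑ i, a i ≤ ∑ j, d j + K := by
    have h1 : ((∑ i, a i : ℕ) : ℤ) ≤ ((∑ j, d j + K : ℕ) : ℤ) := by
      push_cast
      have : (n : ℤ) + 1 ≤ K := by exact_mod_cast hK
      linarith
    exact_mod_cast h1
  refine ⟨hle, fun x hx hfx => ?_⟩
  obtain ⟨e, he⟩ : ∃ e, e = ∑ j, d j + K - ∑ i, a i := ⟨_, rfl⟩
  rw [← he]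
  have heB : ∑ j, B a d J j ≤ (e : ℤ) := by
    have h1 : (e : ℤ) + ∑ i, (a i : ℤ) = ∑ j, (d j : ℤ) + K := by
      have : e + ∑ i, a i = ∑ j, d j + K := by omega
      exact_mod_cast this
    have : (n : ℤ) + 1 ≤ K := by exact_mod_cast hK
    linarith
  by_cases hone : ∃ i, x i ≠ 0 ∧ a i = 1
  · obtain ⟨i, hi, hai⟩ := hone
    exact hasMon_single hai hi e
  push Not at hone
  have hbig : ∀ i, x i ≠ 0 → 1 < a i := fun i hi => by
    have h1 := ha i
    have h2 := hone i hi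
    omega
  by_cases hinj : ∃ i l, x i ≠ 0 ∧ x l ≠ 0 ∧ i ≠ l ∧ J i = J l
  · obtain ⟨i, l, hi, hl, hil, hJil⟩ := hinj
    refine hasMon_pair ha hil (hcop i l hil hJil) hi hl ?_
    refine (B_pair ha hcop hd hJ hil hJil).trans (le_trans ?_ heB)
    have := hsub {J i}
    rwa [sum_singleton] at this
  push Not at hinj
  have hDex : ∀ i, ∃ D : ℕ, 1 < a i → D * a i = d (J i) ∧
      coeff (Finsupp.single i D) (f (J i)) ≠ 0 := by
    intro i
    by_cases hi : 1 < a i
    · obtain ⟨D, hD, hc⟩ := coord (hf (J i)) (hJ1 i hi)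
      exact ⟨D, fun _ => ⟨hD, hc⟩⟩
    · exact ⟨0, fun h => absurd h hi⟩
  choose D hD using hDex
  obtain ⟨T, Cm, hTne, hTx, hCm, hsys, hu⟩ := exists_T a ha (fun i => f (J i)) D x hx hbig
    (fun i hi => by rw [(hD i hi).1]; exact hf _) (fun i hi => (hD i hi).2) hav
    (fun i _ => hfx _)
  have hJT : ∑ i ∈ T, B a d J (J i) ≤ (e : ℤ) := by
    have h1 : ∑ i ∈ T, B a d J (J i) = ∑ j ∈ T.image J, B a d J j := by
      rw [sum_image]
      intro i hi l hl h
      by_contra hil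
      exact hinj i l (hTx i hi) (hTx l hl) hil h
    rw [h1]
    exact (hsub _).trans heB
  have hfin : (∃ y : V → ℕ, ∑ i ∈ T, y i * a i = e) → HasMon a x e := by
    rintro ⟨y, hy'⟩
    refine ⟨fun i => if i ∈ T then y i else 0, fun i hi => hTx i ?_, ?_⟩
    · by_contra h3
      exact hi (if_neg h3)
    · rw [← hy', ← sum_subset (subset_univ T)]
      · exact sum_congr rfl fun i hi => by beta_reduce; rw [if_pos hi]
      · intro i _ hi
        beta_reduce
        rw [if_neg hi, zero_mul]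
  rcases caseF ha hcop hd hJ T hTne D Cm
    (fun i hi => (hD i (hbig i (hTx i hi))).1) (fun i hi => (hCm i hi).1)
    (fun i hi => (hCm i hi).2) e hJT with ⟨p, hp, M, hM, h⟩ | ⟨b, hb, h⟩
  · refine hfin (schur a T ha hu hp M hM e ?_)
    have h1 : (((a p - 1) * M : ℕ) : ℤ) = ((a p : ℤ) - 1) * M := by
      rw [Nat.cast_mul, Nat.cast_sub (ha p)]; simp
    rw [← h1] at h
    exact_mod_cast h
  · obtain ⟨y, hy⟩ := semigroup_sys a Cm T ha hsys hu hb (e : ℤ) h
    exact hfin ⟨y, by exact_mod_cast hy⟩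

end Pool.Agent.U479.VC
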